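import Pool.Agent.Run7.h335.MF.Match

/-!
# Nowhere-zero 5-flows of a graph and of a contraction of it; gluing at small edge cuts
-/

set_option autoImplicit false
set_option linter.unusedSectionVars false

namespace Pool.Agent.Run7.h335.MF

open Finset Pool.Agent.TH676.Z Pool.Agent.Y335.FL Pool.Agent.Y358.IN

section
variable {V W E : Type} [Fintype V] [DecidableEq V] [Fintype W] [DecidableEq W] [Fintype E]
  [DecidableEq E]

theorem bd_map (π : V → W) (s d : E → V) (f : E → ZMod 5) (w : W) :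
    bd (π ∘ s) (π ∘ d) f w = ∑ v ∈ univ.filter (fun v => π v = w), bd s d f v := by
  unfold bd
  rw [sum_comm]
  refine sum_congr rfl fun e _ => ?_
  rw [sum_sub_distrib, sum_ite_eq, sum_ite_eq]
  simp only [mem_filter, mem_univ, true_and, Function.comp]

theorem FlowOn.map (π : V → W) {s d : E → V} {D C : Finset E} (h : FlowOn s d D C) :
    FlowOn (π ∘ s) (π ∘ d) D C := by
  obtain ⟨f, h1, h2, h3⟩ := h
  refine ⟨f, fun w => ?_, h2, h3⟩
  rw [bd_map]
  exact sum_eq_zero fun v _ => h1 v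

theorem crs_map (π : V → W) (s d : E → V) (Y : Finset W) :
    crs (π ∘ s) (π ∘ d) Y = crs s d (univ.filter (fun v => π v ∈ Y)) := by
  ext e
  unfold crs
  simp

theorem Br.map (π : V → W) {s d : E → V} (h : Br s d ∅ ∅) : Br (π ∘ s) (π ∘ d) ∅ ∅ := by
  intro Y _
  rw [crs_map]
  exact h _ (disjoint_empty_right _)

/-- `r` contracts the edges of `F` and nothing else -/
def Contr5 (s d : E → V) (F : Finset E) (r : V → V) : Prop :=
  (∀ e ∈ F, r (s e) = r (d e)) ∧ ∀ v, ∀ Y : Finset V, Disjoint (crs s d Y) F → (v ∈ Y ↔ r v ∈ Y)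

theorem Contr5.comp {s d : E → V} {F : Finset E} {r : V → V} (hr : Contr5 s d F r)
    (q : V → W) (hq : ∀ e ∈ F, q (s e) = q (d e)) (v : V) : q (r v) = q v := by
  have h1 := hr.2 v (univ.filter (fun u => q u = q v)) (by
    rw [disjoint_left]
    intro e he heF
    unfold crs at he
    apply (mem_filter.1 he).2
    simp only [mem_filter, mem_univ, true_and, hq e heF])
  simp only [mem_filter, mem_univ, true_and, true_iff] at h1
  exact h1

/-- flows of the contracted graph can be lifted -/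
theorem lift_contr (hQ : St_quot) {s d : E → V} {F : Finset E} {r : V → V}
    (hr : Contr5 s d F r) (h : FlowOn (r ∘ s) (r ∘ d) ∅ ∅) : FlowOn s d ∅ F := by
  obtain ⟨W', i1, i2, q, _, hqF, hl, _⟩ := hQ V E s d F
  have h1 : FlowOn (q ∘ (r ∘ s)) (q ∘ (r ∘ d)) ∅ ∅ := FlowOn.map q h
  have e1 : q ∘ (r ∘ s) = q ∘ s := funext fun e => hr.comp q hqF (s e)
  have e2 : q ∘ (r ∘ d) = q ∘ d := funext fun e => hr.comp q hqF (d e)
  rw [e1, e2] at h1
  have h2 := hl ∅ h1
  rwa [union_empty] at h2

/-- **Matching number at most 62 modulo a chain of cycles.** -/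
theorem flow_mat_mod (hc : St_contract) (hQ : St_quot) {s d : E → V} {F : Finset E} {r : V → V}
    (hb : Br s d ∅ ∅) (hr : Contr5 s d F r) (h : Mat62 (r ∘ s) (r ∘ d)) : FlowOn s d ∅ F :=
  lift_contr hQ hr (flow_of_mat hc _ _ h (Br.map r hb))

end

end Pool.Agent.Run7.h335.MF
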