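import Pool.Agent.Run7.h335.MF.Sub
import Pool.Agent.H168DD.TB

/-!
# Graphs of girth at least twelve with degrees at least three have a matching with 63 edges
-/

set_option autoImplicit false
set_option linter.unusedSectionVars false

namespace Pool.Agent.Run7.h335.MF

open Finset Pool.Agent.TH676.Z Pool.Agent.Y335.FL Pool.Agent.Y358.IN Pool.Agent.N393.AHL

section
variable {V : Type} [Fintype V] [DecidableEq V] {G : SimpleGraph V} [DecidableRel G.Adj]

/-- the condition of the theorem of Tutte and Berge -/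
theorem few_odd (h12 : ∀ (w : V) (c : G.Walk w w), c.IsCycle → 12 ≤ c.length)
    (h3 : ∀ x y, G.Adj x y → 3 ≤ G.degree x) (hne : ∃ x y, G.Adj x y)
    (A : Finset V) (F : Finset (Finset V)) (hA : A ⊆ supp G) (hodd : ∀ O ∈ F, Odd O.card)
    (hdis : ∀ O ∈ F, ∀ O' ∈ F, O ≠ O' → Disjoint O O') (hsub : ∀ O ∈ F, O ⊆ supp G \ A)
    (hcl : ∀ O ∈ F, ∀ x ∈ O, ∀ y ∈ supp G, G.Adj x y → y ∈ O ∨ y ∈ A) :
    F.card + 126 ≤ A.card + (supp G).card := by
  classical
  by_contra hcon
  push Not at hcon
  have hn := card_supp h12 h3 hne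
  set n := (supp G).card with hn'
  set k := A.card with hk
  set q := F.card with hq
  -- the rest
  set U := F.biUnion id with hU
  have hUs : U ⊆ supp G \ A := by
    rw [hU]
    exact biUnion_subset.2 hsub
  set X := (supp G \ A) \ U with hX
  have hUc : U.card = ∑ O ∈ F, O.card := by
    rw [hU, card_biUnion]
    · rfl
    · intro O hO O' hO' hne
      exact hdis O hO O' hO' hne
  have hcX : X.card + U.card = (supp G \ A).card := card_sdiff_add_card_eq_card hUs
  have hcA : (supp G \ A).card + k = n := card_sdiff_add_card_eq_card hA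
  have hodd1 : ∀ O ∈ F, 1 ≤ O.card := fun O hO => (hodd O hO).pos
  -- the sizes
  have hsz : ∑ O ∈ F, (O.card - 1) + q = U.card := by
    rw [hUc, hq, card_eq_sum_ones, ← sum_add_distrib]
    refine sum_congr rfl fun O hO => ?_
    have := hodd1 O hO
    omega
  set R := X.card + ∑ O ∈ F, (O.card - 1) with hR
  have hRk : R + q + k = n := by omega
  have hR125 : R + 2 * k ≤ 125 := by omega
  have hO125 : ∀ O ∈ F, O.card ≤ 125 - 2 * k + 1 := by
    intro O hO
    have h1 : O.card - 1 ≤ ∑ O ∈ F, (O.card - 1) :=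
      single_le_sum (f := fun O => O.card - 1) (fun _ _ => Nat.zero_le _) hO
    omega
  have hO125' : ∀ O ∈ F, O.card ≤ 125 := by
    intro O hO
    have h1 := hO125 O hO
    have h2 := hodd O hO
    rcases h2 with ⟨a, ha⟩
    omega
  -- edges inside
  have hin : ∑ x ∈ supp G \ A, (G.neighborFinset x ∩ (supp G \ A)).card =
      ∑ x ∈ X, (G.neighborFinset x ∩ X).card +
        ∑ O ∈ F, ∑ x ∈ O, (G.neighborFinset x ∩ O).card := by
    rw [← sum_sdiff hUs, ← hX]
    congr 1
    · refine sum_congr rfl fun x hx => ?_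
      congr 1
      ext z
      rw [mem_inter, mem_inter]
      refine and_congr_right fun hz => ⟨fun hzs => ?_, fun hzX => (mem_sdiff.1 hzX).1⟩
      refine mem_sdiff.2 ⟨hzs, fun hzU => ?_⟩
      obtain ⟨O, hO, hzO⟩ := mem_biUnion.1 hzU
      obtain ⟨hx1, hx2⟩ := mem_sdiff.1 hx
      obtain ⟨hx3, hx4⟩ := mem_sdiff.1 hx1
      rcases hcl O hO z hzO x hx3 ((G.mem_neighborFinset x z).1 hz).symm with h | h
      · exact hx2 (mem_biUnion.2 ⟨O, hO, h⟩)
      · exact hx4 h
    · rw [hU, sum_biUnion]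
      · refine sum_congr rfl fun O hO => sum_congr rfl fun x hx => ?_
        congr 1
        ext z
        rw [mem_inter, mem_inter]
        refine and_congr_right fun hz => ⟨fun hzs => ?_, fun hzO => hsub O hO hzO⟩
        obtain ⟨hz1, hz2⟩ := mem_sdiff.1 hzs
        rcases hcl O hO x hx z hz1 ((G.mem_neighborFinset x z).1 hz) with h | h
        · exact h
        · exact absurd h hz2
      · intro O hO O' hO' hne
        exact hdis O hO O' hO' hne
  have hXin : ∑ x ∈ X, (G.neighborFinset x ∩ X).card ≤ 3 * X.card := by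
    rcases Nat.eq_zero_or_pos X.card with h0 | h0
    · rw [card_eq_zero] at h0
      rw [h0]
      simp
    · have := (small_sum h12 _ X rfl h0).2 (by omega)
      omega
  -- degrees
  have hdeg : 3 * (supp G \ A).card ≤ ∑ x ∈ A, G.degree x +
      ∑ x ∈ supp G \ A, (G.neighborFinset x ∩ (supp G \ A)).card := by
    have h4 : 3 * (supp G \ A).card ≤ ∑ x ∈ supp G \ A, (G.neighborFinset x ∩ A).card +
        ∑ x ∈ supp G \ A, (G.neighborFinset x ∩ (supp G \ A)).card := by
      rw [mul_comm, ← smul_eq_mul, ← sum_const, ← sum_add_distrib]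
      refine sum_le_sum fun x hx => ?_
      obtain ⟨z, hz⟩ := mem_supp.1 (mem_sdiff.1 hx).1
      refine (h3 x z hz).trans ?_
      rw [← G.card_neighborFinset_eq_degree]
      refine le_trans (card_le_card ?_) (card_union_le _ _)
      intro y hy
      rw [mem_union, mem_inter, mem_inter, mem_sdiff]
      by_cases h : y ∈ A
      · exact Or.inl ⟨hy, h⟩
      · exact Or.inr ⟨hy, mem_supp.2 ⟨x, ((G.mem_neighborFinset x y).1 hy).symm⟩, h⟩
    have h5 : ∑ x ∈ supp G \ A, (G.neighborFinset x ∩ A).card ≤ ∑ x ∈ A, G.degree x := by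
      rw [cross]
      refine sum_le_sum fun x _ => ?_
      rw [← G.card_neighborFinset_eq_degree]
      exact card_le_card inter_subset_left
    omega
  have hD := sum_deg_le h12 h3 hA
  rw [← hn', ← hk] at hD
  rw [hin] at hdeg
  set D := ∑ x ∈ A, G.degree x with hDdef
  by_cases hbig : ∃ O ∈ F, 122 ≤ O.card
  · obtain ⟨O, hO, hO122⟩ := hbig
    have h1 := hO125 O hO
    have hk2 : k ≤ 2 := by omega
    -- the other members
    have h6 : ∑ O ∈ F, ∑ x ∈ O, (G.neighborFinset x ∩ O).card + 3 * q ≤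
        3 * ∑ O ∈ F, O.card + 2 := by
      rw [← add_sum_erase F _ hO, ← add_sum_erase F (fun O => O.card) hO]
      have h7 : ∑ P ∈ F.erase O, ∑ x ∈ P, (G.neighborFinset x ∩ P).card + 3 * (F.erase O).card ≤
          3 * ∑ P ∈ F.erase O, P.card := by
        rw [mul_sum, mul_comm 3, ← smul_eq_mul, ← sum_const, ← sum_add_distrib]
        refine sum_le_sum fun P hP => ?_
        obtain ⟨hP1, hP2⟩ := mem_erase.1 hP
        refine (small_sum h12 _ P rfl (hodd1 P hP2)).1 ?_
        have h8 : (O.card - 1) + (P.card - 1) ≤ ∑ O ∈ F, (O.card - 1) := by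
          rw [← add_sum_erase F _ hO]
          exact Nat.add_le_add_left (single_le_sum (f := fun O => O.card - 1)
            (fun _ _ => Nat.zero_le _) hP) _
        omega
      have h8 := (small_sum h12 _ O rfl (hodd1 O hO)).2 (hO125' O hO)
      rw [card_erase_of_mem hO, ← hq] at h7
      have hq1 : 1 ≤ q := card_pos.2 ⟨O, hO⟩
      have h9 : 3 * (q - 1) + 3 = 3 * q := by omega
      change (∑ x ∈ O, (G.neighborFinset x ∩ O).card + _) + 3 * q ≤ 3 * (O.card + _) + 2
      omega
    have h10 : 3 * q ≤ D + 2 := by omega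
    interval_cases k <;> omega
  · push Not at hbig
    have h6 : ∑ O ∈ F, ∑ x ∈ O, (G.neighborFinset x ∩ O).card + 3 * q ≤ 3 * ∑ O ∈ F, O.card := by
      rw [hq, mul_sum, mul_comm 3, ← smul_eq_mul, ← sum_const, ← sum_add_distrib]
      refine sum_le_sum fun P hP => ?_
      exact (small_sum h12 _ P rfl (hodd1 P hP)).1 (by have := hbig P hP; omega)
    have h10 : 3 * q ≤ D := by omega
    have hk62 : k ≤ 62 := by omega
    have hqk : k + 1 ≤ q := by omega
    have h11 : 93 * q + 33 * k ≤ k * n := by omega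
    have h12 : k * n ≤ k * (125 - k + q) := Nat.mul_le_mul_left _ (by omega)
    obtain ⟨a, ha⟩ : ∃ a, q = k + 1 + a := Nat.exists_eq_add_of_le hqk
    obtain ⟨b, hb⟩ : ∃ b, 62 = k + b := Nat.exists_eq_add_of_le hk62
    have h13 : 125 - k = 63 + b := by omega
    rw [h13, ha] at h12
    rw [ha] at h11
    have h14 : k = 62 - b := by omega
    nlinarith

/-- **a matching which covers 126 vertices** -/
theorem exists_mat (h12 : ∀ (w : V) (c : G.Walk w w), c.IsCycle → 12 ≤ c.length)
    (h3 : ∀ x y, G.Adj x y → 3 ≤ G.degree x) (hne : ∃ x y, G.Adj x y) :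
    ∃ (T : Finset V) (m : V → V), 126 ≤ T.card ∧ ∀ x ∈ T, m x ∈ T ∧ m (m x) = x ∧ G.Adj x (m x) := by
  classical
  have hn := card_supp h12 h3 hne
  obtain ⟨U, m, hU, hUc, hm⟩ := H168DD.tutte_berge G (supp G) ((supp G).card - 126)
    ⟨(supp G).card - 63, by omega⟩ (by
      intro A F hA hodd hdis hsub hcl
      have := few_odd h12 h3 hne A F hA hodd hdis hsub hcl
      omega)
  refine ⟨supp G \ U, m, ?_, hm⟩
  have := card_sdiff_add_card_eq_card hU
  omega

end

/-- `M` is a matching: the edges are not loops and no two of them have a common end -/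
def IsMat {V E : Type} (s t : E → V) (M : Finset E) : Prop :=
  (∀ e ∈ M, s e ≠ t e) ∧ ∀ e ∈ M, ∀ e' ∈ M, e ≠ e' →
    s e ≠ s e' ∧ s e ≠ t e' ∧ t e ≠ s e' ∧ t e ≠ t e'

theorem IsMat.of_map {V W E : Type} {s t : E → V} (π : V → W) {M : Finset E}
    (h : IsMat (π ∘ s) (π ∘ t) M) : IsMat s t M :=
  ⟨fun e he h' => h.1 e he (congrArg π h'), fun e he e' he' hne =>
    have := h.2 e he e' he' hne
    ⟨fun h' => this.1 (congrArg π h'), fun h' => this.2.1 (congrArg π h'),
      fun h' => this.2.2.1 (congrArg π h'), fun h' => this.2.2.2 (congrArg π h')⟩⟩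

/-- no matching has 63 edges -/
def Mat62 {V E : Type} (s t : E → V) : Prop := ∀ M : Finset E, IsMat s t M → M.card ≤ 62

theorem Mat62.map {V W E : Type} {s t : E → V} (π : V → W) (h : Mat62 s t) :
    Mat62 (π ∘ s) (π ∘ t) := fun M hM => h M (hM.of_map π)

section
variable {V E : Type} [Fintype V] [DecidableEq V] [Fintype E] [DecidableEq E]

theorem ccMat : CC (V := V) (E := E) Mat62 := fun _ _ _ h _ => h.map _

/-- **Graphs of matching number at most 62.** -/
theorem flow_of_mat (hc : St_contract) (src dst : E → V) (hcl : Mat62 src dst)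
    (hbr : Br src dst ∅ ∅) : FlowOn src dst ∅ ∅ := by
  classical
  by_contra hn
  obtain ⟨s, d, hmat, hM⟩ := exists_minC ccMat src dst hcl hbr hn
  obtain ⟨G, hG, h12, h3, hne, hdg⟩ := frame hc hM
  obtain ⟨T, m, hT, hm⟩ := exists_mat h12 (deg3_of h3) hne
  -- the edges
  have hed : ∀ p : Sym2 V, p ∈ G.edgeSet → ∃ e, s(s e, d e) = p := by
    intro p
    induction p using Sym2.ind with
    | _ x y =>
      intro hp
      obtain ⟨_, e, he⟩ := (hG x y).1 hp
      rcases he with ⟨a, b⟩ | ⟨a, b⟩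
      · exact ⟨e, by rw [a, b]⟩
      · exact ⟨e, by rw [a, b, Sym2.eq_swap]⟩
  have : Nonempty E := by
    obtain ⟨x, y, hxy⟩ := hne
    obtain ⟨_, e, _⟩ := (hG x y).1 hxy
    exact ⟨e⟩
  choose! ed hed' using hed
  set f : V → E := fun x => ed s(x, m x) with hf
  have hfe : ∀ x ∈ T, s(s (f x), d (f x)) = s(x, m x) := fun x hx => hed' _ (hm x hx).2.2
  have hfm : ∀ x ∈ T, f (m x) = f x := by
    intro x hx
    simp only [hf]
    rw [(hm x hx).2.1, Sym2.eq_swap]
  -- the ends of the edges
  have hend : ∀ x ∈ T, ∀ z, (s (f x) = z ∨ d (f x) = z) → z ∈ T ∧ f z = f x := by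
    intro x hx z hz
    have h1 := hfe x hx
    have h2 : z ∈ (s(s (f x), d (f x)) : Sym2 V) := by
      rw [Sym2.mem_iff]
      rcases hz with h | h
      · exact Or.inl h.symm
      · exact Or.inr h.symm
    rw [h1, Sym2.mem_iff] at h2
    rcases h2 with rfl | rfl
    · exact ⟨hx, rfl⟩
    · exact ⟨(hm x hx).1, hfm x hx⟩
  have hMat : IsMat s d (T.image f) := by
    constructor
    · intro e he heq
      obtain ⟨x, hx, rfl⟩ := mem_image.1 he
      have h1 := hfe x hx
      rw [heq] at h1
      have h2 : x = m x := by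
        have h3 : (x = d (f x) ∧ m x = d (f x)) := by
          rw [Sym2.eq_iff] at h1
          rcases h1 with ⟨a, b⟩ | ⟨a, b⟩
          · exact ⟨a.symm, b.symm⟩
          · exact ⟨b.symm, a.symm⟩
        exact h3.1.trans h3.2.symm
      exact (hm x hx).2.2.ne h2
    · intro e he e' he' hee
      obtain ⟨x, hx, rfl⟩ := mem_image.1 he
      obtain ⟨y, hy, rfl⟩ := mem_image.1 he'
      have key : ∀ z, (s (f x) = z ∨ d (f x) = z) → (s (f y) = z ∨ d (f y) = z) → False := by
        intro z h1 h2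
        exact hee (((hend x hx z h1).2).symm.trans (hend y hy z h2).2)
      exact ⟨fun h => key _ (Or.inl rfl) (Or.inl h.symm), fun h => key _ (Or.inl rfl) (Or.inr h.symm),
        fun h => key _ (Or.inr rfl) (Or.inl h.symm), fun h => key _ (Or.inr rfl) (Or.inr h.symm)⟩
  have hcard : T.card ≤ 2 * (T.image f).card := by
    refine card_le_mul_card_image (f := f) T 2 ?_
    intro e he
    obtain ⟨x, hx, rfl⟩ := mem_image.1 he
    refine le_trans (card_le_card (t := {s (f x), d (f x)}) ?_) card_le_two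
    intro z hz
    obtain ⟨hz1, hz2⟩ := mem_filter.1 hz
    have h1 := hfe z hz1
    rw [hz2] at h1
    have h2 : z ∈ (s(z, m z) : Sym2 V) := Sym2.mem_mk_left _ _
    rw [← h1, Sym2.mem_iff] at h2
    rw [mem_insert, mem_singleton]
    exact h2
  have := hmat _ hMat
  omega

end

end Pool.Agent.Run7.h335.MF
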