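import Pool.Agent.N393.AHL.LocM

/-!
# Small vertex sets of graphs of girth at least twelve span few edges
-/

set_option autoImplicit false
set_option linter.unusedSectionVars false

namespace Pool.Agent.Run7.h335.MF

open Finset Pool.Agent.TH676.Z Pool.Agent.Y335.FL Pool.Agent.Y358.IN Pool.Agent.N393.AHL

section
variable {V : Type} [Fintype V] [DecidableEq V] {G : SimpleGraph V} [DecidableRel G.Adj]

theorem tangent {y : ℝ} (hy : 1 ≤ y) :
    126 + 258 * (y - 2) ≤ 2 * ∑ d ∈ range 6, y ^ d := by
  simp only [sum_range_succ, sum_range_zero]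
  have h : 2 * (0 + y ^ 0 + y ^ 1 + y ^ 2 + y ^ 3 + y ^ 4 + y ^ 5) - (126 + 258 * (y - 2)) =
      (y - 2) ^ 2 * (2 * y ^ 3 + 10 * y ^ 2 + 34 * y + 98) := by ring
  have h2 : 0 ≤ (y - 2) ^ 2 * (2 * y ^ 3 + 10 * y ^ 2 + 34 * y + 98) := by positivity
  linarith

/-- The Moore bound in tangent form. -/
theorem core2 (h12 : ∀ (w : V) (c : G.Walk w w), c.IsCycle → 12 ≤ c.length)
    (h2 : ∀ x y, G.Adj x y → 2 ≤ G.degree x) (hne : ∃ x y, G.Adj x y) :
    12 ≤ (supp G).card ∧
      258 * ∑ x, G.degree x ≤ (supp G).card * (supp G).card + 648 * (supp G).card := by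
  classical
  set N : ℝ := ((supp G).card : ℝ) with hN
  set M : ℝ := ((∑ x, G.degree x : ℕ) : ℝ) with hM
  have hMs : M = ∑ x ∈ supp G, (G.degree x : ℝ) := by
    rw [hM, Nat.cast_sum]
    symm
    exact sum_subset (subset_univ _) fun x _ hx => by rw [deg_zero hx]; simp
  have hN0 : 0 < N := by
    obtain ⟨x, y, hxy⟩ := hne
    rw [hN]
    exact_mod_cast card_pos.2 ⟨x, mem_supp.2 ⟨y, hxy⟩⟩
  have hM2 : 2 * N ≤ M := by
    rw [hMs, mul_comm, hN, ← nsmul_eq_mul, ← sum_const]
    refine sum_le_sum fun x hx => ?_
    obtain ⟨z, hz⟩ := mem_supp.1 hx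
    exact_mod_cast h2 x z hz
  set y : ℝ := M / N - 1 with hy
  have hyM : M = (1 + y) * N := by
    rw [hy]; field_simp; ring
  have hy1 : 1 ≤ y := by
    rw [hy, le_sub_iff_add_le, le_div_iff₀ hN0]
    linarith
  have hL : Real.log y * ∑ x, (G.degree x : ℝ) ≤
      ∑ x, (G.degree x : ℝ) * Real.log ((G.degree x : ℝ) - 1) := by
    have e1 : ∑ x, (G.degree x : ℝ) = M := by rw [hM, Nat.cast_sum]
    have e2 : ∑ x, (G.degree x : ℝ) * Real.log ((G.degree x : ℝ) - 1) =
        ∑ x ∈ supp G, (G.degree x : ℝ) * Real.log ((G.degree x : ℝ) - 1) := by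
      symm
      exact sum_subset (subset_univ _) fun x _ hx => by rw [deg_zero hx]; simp
    rw [e1, e2]
    have h5 : ∑ x ∈ supp G, ((1 + y) * Real.log y + ((G.degree x : ℝ) - (1 + y)) *
        (Real.log y + (1 + y) / y)) ≤
        ∑ x ∈ supp G, (G.degree x : ℝ) * Real.log ((G.degree x : ℝ) - 1) := by
      refine sum_le_sum fun x hx => ?_
      obtain ⟨z, hz⟩ := mem_supp.1 hx
      have h6 : (2 : ℝ) ≤ G.degree x := by exact_mod_cast h2 x z hz
      have h7 := tang2 (x := (G.degree x : ℝ)) (t := 1 + y) h6 (by linarith)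
      rw [add_sub_cancel_left] at h7
      exact h7
    refine le_trans (le_of_eq ?_) h5
    rw [sum_add_distrib, sum_const, ← sum_mul, sum_sub_distrib, sum_const, ← hMs, nsmul_eq_mul,
      nsmul_eq_mul, ← hN, hyM]
    ring
  have h8 : 2 * ∑ d ∈ range 6, y ^ d ≤ N := moore h12 h2 hne (y := y) (by linarith) hL
  have h9 := tangent hy1
  have h10 : (12 : ℝ) ≤ N := by
    refine le_trans ?_ h8
    simp only [sum_range_succ, sum_range_zero]
    have k2 : 1 ≤ y ^ 2 := one_le_pow₀ hy1
    have k3 : 1 ≤ y ^ 3 := one_le_pow₀ hy1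
    have k4 : 1 ≤ y ^ 4 := one_le_pow₀ hy1
    have k5 : 1 ≤ y ^ 5 := one_le_pow₀ hy1
    simp only [pow_zero, pow_one]
    linarith
  refine ⟨by rw [hN] at h10; exact_mod_cast h10, ?_⟩
  have h11 : (126 + 258 * (y - 2)) * N ≤ N * N :=
    mul_le_mul_of_nonneg_right (h9.trans h8) hN0.le
  have h13 : 258 * M ≤ N * N + 648 * N := by
    have e : (126 + 258 * (y - 2)) * N = 258 * ((1 + y) * N) - 648 * N := by ring
    rw [e, ← hyM] at h11
    linarith
  rw [hM, hN] at h13
  exact_mod_cast h13

/-- A set with at most `125` vertices spans few edges. -/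
theorem small_sum (h12 : ∀ (w : V) (c : G.Walk w w), c.IsCycle → 12 ≤ c.length) :
    ∀ (n : ℕ) (C : Finset V), C.card = n → 1 ≤ n →
      (n ≤ 121 → ∑ x ∈ C, (G.neighborFinset x ∩ C).card + 3 ≤ 3 * n) ∧
      (n ≤ 125 → ∑ x ∈ C, (G.neighborFinset x ∩ C).card + 1 ≤ 3 * n) := by
  classical
  intro n
  induction n with
  | zero =>
    intro C _ h
    omega
  | succ n ih =>
    intro C hC _
    by_cases hx : ∃ x ∈ C, (G.neighborFinset x ∩ C).card ≤ 1
    · obtain ⟨x, hx, hx1⟩ := hx
      have h2 : ∑ z ∈ C, (G.neighborFinset z ∩ C).card ≤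
          ∑ z ∈ C.erase x, (G.neighborFinset z ∩ C.erase x).card +
            2 * (G.neighborFinset x ∩ C).card := by
        rw [← add_sum_erase C _ hx]
        have h3 : ∀ z ∈ C.erase x, (G.neighborFinset z ∩ C).card ≤
            (G.neighborFinset z ∩ C.erase x).card + (if G.Adj x z then 1 else 0) := by
          intro z _
          by_cases hz : G.Adj x z
          · rw [if_pos hz]
            refine le_trans (card_le_card ?_) (card_insert_le x _)
            intro a ha
            rw [mem_inter] at ha
            rw [mem_insert, mem_inter, mem_erase]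
            by_cases hax : a = x
            · exact Or.inl hax
            · exact Or.inr ⟨ha.1, hax, ha.2⟩
          · rw [if_neg hz, add_zero]
            refine card_le_card ?_
            intro a ha
            rw [mem_inter] at ha
            rw [mem_inter, mem_erase]
            refine ⟨ha.1, ?_, ha.2⟩
            rintro rfl
            exact hz ((G.mem_neighborFinset z a).1 ha.1).symm
        have h4 : ∑ z ∈ C.erase x, (if G.Adj x z then 1 else 0) ≤
            (G.neighborFinset x ∩ C).card := by
          rw [← card_filter]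
          refine card_le_card ?_
          intro z hz
          obtain ⟨h5, h6⟩ := mem_filter.1 hz
          exact mem_inter.2 ⟨(G.mem_neighborFinset x z).2 h6, mem_of_mem_erase h5⟩
        have h5 := sum_le_sum h3
        rw [sum_add_distrib] at h5
        omega
      rcases Nat.eq_zero_or_pos n with hn | hn
      · -- one vertex
        subst hn
        have h1 : C = {x} := by
          rw [zero_add, card_eq_one] at hC
          obtain ⟨a, rfl⟩ := hC
          rw [mem_singleton] at hx
          rw [hx]
        have h3 : ∑ z ∈ C, (G.neighborFinset z ∩ C).card = 0 := by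
          rw [h1, sum_singleton, card_eq_zero, eq_empty_iff_forall_notMem]
          intro a ha
          obtain ⟨h4, h5⟩ := mem_inter.1 ha
          rw [mem_singleton] at h5
          subst h5
          exact G.loopless.irrefl _ ((G.mem_neighborFinset _ _).1 h4)
        rw [h3]
        omega
      · obtain ⟨h6, h7⟩ := ih (C.erase x) (by rw [card_erase_of_mem hx, hC]; rfl) hn
        constructor
        · intro h
          have := h6 (by omega)
          omega
        · intro h
          have := h7 (by omega)
          omega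
    · push Not at hx
      let F : SimpleGraph V :=
        { Adj := fun a b => G.Adj a b ∧ a ∈ C ∧ b ∈ C
          symm := ⟨fun a b h => ⟨h.1.symm, h.2.2, h.2.1⟩⟩
          loopless := ⟨fun a h => G.loopless.irrefl a h.1⟩ }
      have hFG : F ≤ G := fun a b h => h.1
      have hdec : DecidableRel F.Adj := fun a b => inferInstanceAs (Decidable (G.Adj a b ∧ a ∈ C ∧ b ∈ C))
      have hN : ∀ x ∈ C, F.neighborFinset x = G.neighborFinset x ∩ C := by
        intro x hx
        ext z
        rw [SimpleGraph.mem_neighborFinset, mem_inter, SimpleGraph.mem_neighborFinset]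
        exact ⟨fun h => ⟨h.1, h.2.2⟩, fun h => ⟨h.1, hx, h.2⟩⟩
      have hsupp : supp F = C := by
        ext x
        rw [mem_supp]
        refine ⟨fun ⟨y, h⟩ => h.2.1, fun h => ?_⟩
        have h1 := hx x h
        obtain ⟨y, hy⟩ := card_pos.1 (lt_trans zero_lt_one h1)
        obtain ⟨h2, h3⟩ := mem_inter.1 hy
        exact ⟨y, (G.mem_neighborFinset x y).1 h2, h, h3⟩
      have hdeg : ∑ x, F.degree x = ∑ x ∈ C, (G.neighborFinset x ∩ C).card := by
        have h1 : ∑ x, F.degree x = ∑ x ∈ C, F.degree x := by
          symm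
          refine sum_subset (subset_univ _) fun x _ hx => ?_
          rw [← hsupp] at hx
          exact deg_zero hx
        rw [h1]
        refine sum_congr rfl fun x hx => ?_
        rw [← F.card_neighborFinset_eq_degree, hN x hx]
      have hCne : C.Nonempty := card_pos.1 (by omega)
      have h12F : ∀ (w : V) (c : F.Walk w w), c.IsCycle → 12 ≤ c.length := by
        intro w c hc
        have h1 := h12 w (c.mapLe hFG) (hc.mapLe hFG)
        simpa using h1
      have h2F : ∀ x y, F.Adj x y → 2 ≤ F.degree x := by
        intro x y hxy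
        rw [← F.card_neighborFinset_eq_degree, hN x hxy.2.1]
        exact hx x hxy.2.1
      obtain ⟨x0, hx0⟩ := hCne
      have hneF : ∃ x y, F.Adj x y := by
        rw [← hsupp] at hx0
        obtain ⟨y, hy⟩ := mem_supp.1 hx0
        exact ⟨x0, y, hy⟩
      obtain ⟨h5, h6⟩ := core2 h12F h2F hneF
      rw [hdeg, hsupp, hC] at h6
      rw [hsupp, hC] at h5
      set M := ∑ x ∈ C, (G.neighborFinset x ∩ C).card with hMdef
      constructor
      · intro h
        by_contra hcon
        push Not at hcon
        have h7 : (n + 1) * (n + 1) + 516 < 126 * (n + 1) := by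
          have : (n + 1) * (n + 1) + 516 + (n + 1 - 12) * (121 - (n + 1)) ≤ 126 * (n + 1) - 1 := by
            obtain ⟨a, ha⟩ := Nat.exists_eq_add_of_le h5
            obtain ⟨b, hb⟩ := Nat.exists_eq_add_of_le h
            rw [ha] at hb ⊢
            have h8 : 12 + a - 12 = a := by omega
            have h9 : 121 - (12 + a) = b := by omega
            rw [h8, h9]
            have h10 : b = 109 - a := by omega
            have h11 : a ≤ 109 := by omega
            subst h10
            zify [h11, show 1 ≤ 126 * (12 + a) by omega]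
            nlinarith
          omega
        nlinarith
      · intro h
        by_contra hcon
        push Not at hcon
        nlinarith
end

end Pool.Agent.Run7.h335.MF
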